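import Pool.Agent.U901.BB5

/-!
# The Bloch-Beilinson filtration on the zero-cycles of products of Fermat hypersurfaces

Fix `m ≥ 3` and an algebraically closed field `𝕜` of characteristic zero, for instance `ℂ`. We consider
all products `X = X_1 × ⋯ × X_K` of Fermat hypersurfaces `∑ i, x i ^ m = 0` of degree `m` whose
dimensions `d_k` satisfy `m ≤ 2 d_k + 1`: the powers of the Fermat cubic curve (`m = 3`), of the
Fermat quartic K3 surface, of the Fermat quintic surface (general type, `p_g = 4`), products of
Fermat hypersurfaces of degree `7` and dimensions `3, 4, 5, …`, and so on. The correspondences are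
the integral combinations of the morphisms `X → Y` all of whose components are either constant (with
a value with a vanishing coordinate) or a projection followed by a linear automorphism; for instance
projections, diagonal morphisms, permutations, inclusions of products of some of the factors, and
all groups of linear automorphisms of the factors.

**Theorem.** There is exactly one system of filtrations
`CH_0(X)_ℚ = F^0 ⊇ F^1 ⊇ F^2 ⊇ ⋯`, for all these `X`, with
* `F^1` the zero-cycles of degree zero (homologically trivial cycles), `F^{dim X + 1} = 0`;
* `a_* F^ν CH_0(X)_ℚ ⊆ F^ν CH_0(Y)_ℚ` for all correspondences `a` from `X` to `Y`;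
* `a_* F^ν CH_0(X)_ℚ ⊆ F^{ν + 1} CH_0(Y)_ℚ`, i.e. `gr^ν a_* = 0`, if the pullback
  `a^* : H^0(Y, Ω^ν) → H^0(X, Ω^ν)` of holomorphic `ν`-forms is zero.

It is `F^ν = ` the zero-cycles whose push-forwards to all products of some of the factors of dimension
less than `ν` are zero in `CH_0 ⊗ ℚ`.

These are the conditions of Bloch and Beilinson for zero-cycles, where the last one is even in the
strong form with `H^{ν,0}` instead of `H^ν` (dual to `H^{2 dim X - ν}`). (For `m ≥ 4` the varieties have
`H^1 = 0`, and `F^2 = F^1`; for `m = 3` the subgroup `F^2` consists of the cycles of degree zero with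
zero push-forward to the elliptic curves among the factors, which is the kernel of the
Abel-Jacobi map.)

Main points of the proof.
* Rational equivalence (`RatEquivZero`: rational curves in symmetric powers, given by polynomial families
  of Chow forms in the Segre embedding) is respected by projections `X × Y → X`: the Chow forms of the
  projected cycles are obtained by dividing a family of tensors of rank one over `𝕜[t]` by its
  content (`Pool/Agent/U901/BB4.lean`).
* A morphism as above gives, for each set `T` of factors of `Y` for which the components come from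
  different factors of `X`, after an identification of the factors an automorphism of `Y`
  (`BB1.lean`), and all other types of components of functionals on zero-cycles of `Y` vanish on its
  image (`BB2.lean`). With the theorem of the library of the starting files on automorphisms
  (`Pool/Agent/T2H37/PR`) this gives the theorem `push_tors` on correspondences.
* Uniqueness: the idempotents `∑_{S' ⊆ S} (-1)^|S - S'| (x ↦ (x on S', o elsewhere))` move all zero-cycles
  to `F^{d(S)}` (`BB5.lean`).

`Pts 𝕜 N m`: the points of `X` (the `k`-th factor has dimension `N k - 2`). `Adm N m`: the condition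
`m ≤ 2 d_k + 1`. `Mor 𝕜 N N' m`: the morphisms. `push a z`: the image of the zero-cycle `z`. `Tors z`:
`z` is torsion modulo rational equivalence. `KillsForms a ν`: the pullback of `ν`-forms is zero, in
terms of residues. `IsBB 𝕜 m F`: the list of conditions. `Fil 𝕜 N m ν`: the explicit filtration.
-/

set_option autoImplicit false

namespace Pool.Agent.Results.MP_08891c_ag.FermatProducts

open Pool.Agent.T2H37.PR Pool.Agent.U901.BB

/-- Existence and uniqueness of the Bloch-Beilinson filtration on the zero-cycles of the products of
Fermat hypersurfaces of degree `m` and dimensions `d` with `m ≤ 2 * d + 1`. -/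
theorem result (𝕜 : Type*) [Field 𝕜] [IsAlgClosed 𝕜] [CharZero 𝕜] (m : ℕ) (hm : 3 ≤ m) :
    (∃ F : ∀ (K : ℕ) (N : Fin K → ℕ), ℕ → AddSubgroup (Pts 𝕜 N m →₀ ℤ), IsBB 𝕜 m F) ∧
      ∀ F : ∀ (K : ℕ) (N : Fin K → ℕ), ℕ → AddSubgroup (Pts 𝕜 N m →₀ ℤ), IsBB 𝕜 m F →
        ∀ (K : ℕ) (N : Fin K → ℕ), Adm N m → ∀ (ν : ℕ) (z : Pts 𝕜 N m →₀ ℤ),
          z ∈ F K N ν ↔ z ∈ Fil 𝕜 N m ν :=
  ⟨⟨_, isBB hm⟩, fun _ hF _ _ hN ν z => isBB_unique hm hF hN ν z⟩

end Pool.Agent.Results.MP_08891c_ag.FermatProducts
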