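import Pool.Agent.U644.BBL.Fil

/-!
# A local-global principle for Bloch-Beilinson filtrations

`𝒱` is a class of smooth proper varieties over a field `k` which is closed under products, for
example the smooth projective varieties over the complex numbers. `C` has the formal properties of
the Chow groups with rational coefficients of these varieties (`IsChow`), `H` those of a Weil
cohomology theory with cycle class maps (`IsWeil`), and `A` those of the Abel-Jacobi maps
(`AbelJacobi`). A Bloch-Beilinson filtration (`IsBB`) satisfies the conditions 1-4 of the problem,
with `F^2` equal to the kernel of the Abel-Jacobi map.

The filtrations of the Chow groups of different varieties need not be compatible to begin with: if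
the Chow groups of each single variety `Y` of a dominating class `S` have a filtration satisfying
the conditions 1-4 with respect to the self-correspondences of `Y` only, there is a Bloch-Beilinson
filtration for all varieties. This in turn is equivalent to a nilpotence statement: for
`Y ∈ S` and `i ≥ 1` the composition of `i - 1` self-correspondences of `Y` ending in `CH^i(Y)`, the
`r`-th of which (`r = 2, ..., i`), applied to `CH^j(Y)`, kills `H^(2j-r)(Y)`, annihilates the kernel
of the Abel-Jacobi map. Moreover there are then a smallest and a largest Bloch-Beilinson filtration,
both explicit.

Proof in outline. The classes obtained by such chains of correspondences between arbitrary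
varieties span the smallest candidate. A chain `X_2 → X_3 → ⋯` is a direct summand of a chain of
self-correspondences of a product of the `X_r` (`Chain.embed`), and it can be lifted along
dominating morphisms (`SelfChain.lift`). The largest candidate consists of the classes that are
annihilated by all chains which are long enough.
-/

set_option autoImplicit false

namespace Pool.Agent.Results.MP_08891c_ag.LocalGlobal

open Pool.Agent.H914 Pool.Agent.H914.VarClass Pool.Agent.W492.BB Pool.Agent.U644.BBL

universe u v w

/-- Let `S` be a class of varieties such that every variety `X` is dominated by some `Y ∈ S` (there
are `f : Y ⟶ X` and a class `u` on `Y` with `f_* u = 1`). The following are equivalent: there is a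
Bloch-Beilinson filtration for all varieties; the filtration `small A` spanned by chains of
correspondences is the smallest Bloch-Beilinson filtration; the filtration `large A` of the classes
annihilated by long chains is the largest one; for every single `Y ∈ S` there is a filtration of the
Chow groups of `Y` satisfying the conditions 1-4 for the self-correspondences of `Y`; for all
`Y ∈ S` the chains of `i - 1` self-correspondences of `Y` ending in codimension `i` annihilate the
kernel of the Abel-Jacobi map. -/
theorem result {k : Type u} [Field k] {𝒱 : VarClass k} {C : TheoryData.{u, v, 0} 𝒱 ℚ} {K : Type w}
    [Field K] {H : WeilTheoryData.{u, v, w} C K} [IsChow C] [IsWeil H] (A : AbelJacobi H)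
    (S : Set 𝒱.Obj) (hS : ∀ X, ∃ Y ∈ S, Dominates C Y X) :
    List.TFAE [HasBB A, IsLeastBB A (small A), IsGreatestBB A (large A), ∀ Y ∈ S, HasBBAt A Y,
      ∀ Y ∈ S, ChainsVanish A Y] :=
  tfae A S hS

end Pool.Agent.Results.MP_08891c_ag.LocalGlobal
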