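import Pool.Agent.U935.BBR.Main

/-!
# Bloch-Beilinson filtrations on rational varieties

`𝒱` is a class of smooth proper varieties over a field which is closed under products, for example
the smooth projective varieties over the complex numbers. `C` has the formal properties of the Chow
groups with rational coefficients of these varieties (`IsChow`), `H` those of a Weil cohomology
theory with cycle class maps (`IsWeil`), and `A` those of the Abel-Jacobi maps (`AbelJacobi`). A
Bloch-Beilinson filtration (`IsBB`, `HasBB`) satisfies the conditions 1-4 of the problem.

Let `S` be a class of varieties in `Ratl` (the smallest class which contains the varieties without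
homologically trivial cycle classes and is closed under blow-ups and under domination; over the
complex numbers it contains all unirational varieties), such that every variety `X` is the centre of
a blow-up `Y` in `S`. Over the complex numbers `S` can be the class of the blow-ups of projective
spaces in one smooth connected subvariety, or the class of all rational, or all unirational
varieties.

1. A Bloch-Beilinson filtration on all varieties with `F^(i+1) CH^i(X) = 0` weakened to
`F^(i+2+e) CH^i(X) = 0` exists if and only if on each single `Y ∈ S` there is one, with respect to
the self-correspondences of `Y` only, with `F^(i+1+e) CH^i(Y) = 0`, and if and only if chains of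
`i - 1 + e` self-correspondences of each `Y ∈ S`, ending in codimension `i`, annihilate the kernel of
the Abel-Jacobi map.

2. If the standard conjecture of Lefschetz type holds for `X` in degrees less than `i`, then the
condition `F^(i+1) CH^i(X) = 0` holds for every filtration on `X` that has the other properties and is
separated, `⋂ F^n CH^i(X) = 0`.

3. If the standard conjecture of Lefschetz type holds for all varieties, then a Bloch-Beilinson
filtration exists if and only if it exists on each single variety `Y ∈ S`, that is, on each single
rational variety. In both conditions `F^(i+1) CH^i = 0` may be replaced by separatedness.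

Proof in outline. If `Y` is the blow-up of `P` along `X` with exceptional divisor `j : E ⟶ Y`,
`p : E ⟶ X`, the operators `j_* p^*` and `- p_* ζ^(r-2) j^*` make `CH^i(X)` a direct summand of
`CH^(i+1)(Y)`, compatibly with correspondences and with the cohomology, so a chain of
self-correspondences of `X` in codimension `i` gives a chain of the same length on `Y` in
codimension `i + 1`. Conversely a class `y ∈ F^(m+1+e) CH^m(Y)` is determined by `g_* y` and by its
coefficients `x_c ∈ F^(m+1+e) CH^(m-1-c)(X)`, `c ≥ 0`; the latter vanish because `F^(i+2+e) CH^i = 0`.
Under the standard conjecture the diagonal of `X` differs from a correspondence which kills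
`H^(2i-n)(X)` by one which factors through the multiplication by `D^(dim X - 2 i + n)`, and the
latter is zero on `CH^i(X)` for `n > i`.
-/

set_option autoImplicit false

namespace Pool.Agent.Results.MP_08891c_ag.RationalVarieties

open Pool.Agent.H914 Pool.Agent.H914.VarClass Pool.Agent.W492.BB Pool.Agent.U644.BBL
  Pool.Agent.U435.BB Pool.Agent.U935.BBR

universe u v w

/-- Let `S` be a class of varieties in the class `Ratl` such that every variety is the centre of a
blow-up `Y ∈ S`.
1. For every `e` the following are equivalent: there is a Bloch-Beilinson filtration on all varieties
with `F^(i+2+e) CH^i = 0` instead of `F^(i+1) CH^i = 0`; each single `Y ∈ S` has a filtration with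
the properties 1-4 for its self-correspondences with `F^(i+1+e) CH^i(Y) = 0` instead of
`F^(i+1) CH^i(Y) = 0`; the chains of `i - 1 + e` self-correspondences ending in codimension `i`
annihilate the kernel of the Abel-Jacobi map of each `Y ∈ S`.
Assume that the Chow groups vanish above the dimension.
2. If the standard conjecture of Lefschetz type holds for `X` in degrees `< i`, then
`F^(i+1) CH^i(X) = 0` for each separated filtration on `X` with the other properties.
3. If the standard conjecture of Lefschetz type holds for all varieties, then a Bloch-Beilinson
filtration exists on all varieties if and only if it exists on each single `Y ∈ S`. -/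
theorem result {k : Type u} [Field k] {𝒱 : VarClass k} {C : TheoryData.{u, v, 0} 𝒱 ℚ} {K : Type w}
    [Field K] {H : WeilTheoryData.{u, v, w} C K} [IsChow C] [IsWeil H] (A : AbelJacobi H)
    (S : Set 𝒱.Obj) (hS : ∀ X, ∃ Y ∈ S, ∃ P, BlowUpOf C X P Y) (hS' : ∀ Y ∈ S, Ratl H Y) :
    (∀ e : ℕ, List.TFAE [HasBBTop A (e + 1), ∀ Y ∈ S, HasBBTopAt A e Y,
      ∀ Y ∈ S, ChainsVanishTop A e Y]) ∧
    ((∀ (X : 𝒱.Obj) (i : ℤ) (x : C.A X), C.Deg i x → (X.dim : ℤ) < i → x = 0) →
      (∀ (X : 𝒱.Obj) (D : C.A X) (i : ℕ), LefschetzBelow H D i →
        ∀ F : ℕ → ℕ → Submodule ℚ (C.A X), IsBBAtWith A Separated X F →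
          ∀ x ∈ F i (i + 1), x = 0) ∧
      ((∀ X : 𝒱.Obj, ∃ D : C.A X, LefschetzB H D) →
        List.TFAE [HasBB A, HasBBSep A, ∀ Y ∈ S, HasBBAt A Y, ∀ Y ∈ S, HasBBSepAt A Y,
          ∀ Y ∈ S, ChainsVanish A Y])) :=
  ⟨fun e => tfae_shift A S hS hS' e, fun hd =>
    ⟨fun _ _ _ hB _ hF _ hx => top_of_lefschetz hd hF hB hx,
      fun hB => tfae_lefschetz A hd hB S hS hS'⟩⟩

end Pool.Agent.Results.MP_08891c_ag.RationalVarieties
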