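import Pool.Agent.U213.BB.Main

/-!
# The Bloch–Beilinson filtration with `F^2 = ker AJ` on varieties of surface type

`𝒱` is a class of smooth projective varieties over a field `k`, closed under products (for the
problem: all of them, `k = ℂ`), `C` the Chow groups with rational coefficients (in the form of their
formal properties, `IsChowProj`), `H` a Weil cohomology theory (`IsWeilProj`, for the problem: the
Betti cohomology), `A` the Abel–Jacobi maps (`AbelJacobi`: they are compatible with the actions of
correspondences on the Chow groups and on the intermediate Jacobians `J^(2i-1)(X)`, the latter action
is zero if the correspondence acts as zero on `H^(2i-1)(X)`, and the Abel–Jacobi map is injective on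
homologically trivial divisor classes), and `SurfaceProperties H` records two known facts: a
homologically trivial divisor class on `X × Y` is the sum of the pull-backs of divisor classes from
`X` and from `Y`, and every surface has a Chow–Künneth decomposition of the kind constructed by Murre.

A variety `X` is of surface type if its Chow motive is a direct summand of a finite direct sum of
twists of motives of surfaces (`OfSurfaceType`).

`IsBBAJ H D A full F` says that the filtration `F` satisfies the conditions 1–4 for the varieties with
the property `D`; if `full` is false then the condition 4 is required only for `ν ≠ 2`.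

Theorem.  There is a filtration `F₀` of the Chow groups with the following properties.

* Unconditionally `F₀` satisfies the conditions 1 (with `F^2 = ker AJ`), 2 and 3, and the condition 4
  for all `ν ≠ 2`, for the varieties of surface type; moreover `F₀^3 = 0`.
* `F₀` satisfies all the conditions 1–4 on the varieties of surface type if and only if Bloch's
  conjecture holds for correspondences between surfaces (every `Z ∈ CH^2(S × T)` which is
  homologically equivalent to a degenerate correspondence acts as zero on the Albanese kernel of `S`).
* If any filtration `F` with the conditions 1–4 on the varieties of surface type exists then `F₀` is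
  one, `F` and `F₀` agree on the varieties of surface type, and `F` is the filtration attached to EVERY
  Chow–Künneth decomposition.
-/

set_option autoImplicit false

universe u v w t

namespace Pool.Agent.Results.MP_08891c_ag.SurfaceTypeAbelJacobi

open Pool.Agent.H914 Pool.Agent.W492.BB Pool.Agent.TH133 Pool.Agent.X308.S Pool.Agent.U213.BB

/-- **The Bloch–Beilinson filtration on the varieties of surface type, with `F^2 = ker AJ`.** -/
theorem result {k : Type u} [Field k] {𝒱 : VarClass k} {C : TheoryData.{u, v, 0} 𝒱 ℚ}
    [IsChowProj C] {K : Type w} [Field K] {H : WeilTheoryData.{u, v, w} C K} [IsWeilProj H]
    (hS : SurfaceProperties H) (A : AbelJacobi.{u, v, w, t} H) :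
    (∀ S : 𝒱.Obj, S.dim = 2 → OfSurfaceType C S) ∧
    ∃ F₀ : Filtration C, IsBBAJ H (OfSurfaceType C) A False F₀ ∧
      StepZero (OfSurfaceType C) F₀ 3 ∧
      (IsBBAJ H (OfSurfaceType C) A True F₀ ↔ BlochCorrespondences H) ∧
      ∀ F, IsBBAJ H (OfSurfaceType C) A True F → IsBBAJ H (OfSurfaceType C) A True F₀ ∧
        Determines H (OfSurfaceType C) F F₀ :=
  ⟨fun _ h => ofSurfaceType_of_dim (H := H) h, mainB hS A⟩

end Pool.Agent.Results.MP_08891c_ag.SurfaceTypeAbelJacobi
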